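import Pool.Agent.T9h98.NK.SpecS

/-!
# (CENC) The centre of the cube is 0
-/

set_option autoImplicit false

open Set
open scoped RealInnerProductSpace

namespace Pool.Agent.T9h26.NK

open Pool.Agent.T9h98.DC Pool.Agent.T9h44.NK Pool.Agent.T9h98.NK

theorem eq_zero_of_inner {D : ℕ} (b : OrthonormalBasis (Fin D) ℝ (E D)) (x : E D)
    (h : ∀ i, ⟪x, b i⟫ = 0) : x = 0 := by
  rw [← b.sum_repr' x]
  refine Finset.sum_eq_zero fun i _ => ?_
  rw [real_inner_comm, h i, zero_smul]

theorem inner_bb {D : ℕ} (b : OrthonormalBasis (Fin D) ℝ (E D)) (i j : Fin D) :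
    ⟪b i, b j⟫ = if i = j then (1 : ℝ) else 0 :=
  orthonormal_iff_ite.1 b.orthonormal i j

theorem fix_center {D : ℕ} (Q : Set (E D)) (c : E D) (r : ℝ)
    (b : OrthonormalBasis (Fin D) ℝ (E D)) (hr : 0 < r) (hQ : Q = {x | ∀ i, |⟪x - c, b i⟫| ≤ r})
    (h : E D ≃ₗᵢ[ℝ] E D) (hh : h '' Q = Q) : h c = c := by
  have hsym : ∀ x ∈ Q, (2 : ℝ) • c - x ∈ Q := by
    intro x hx
    rw [hQ] at hx ⊢
    intro i
    have h1 := hx i
    have h2 : (2 : ℝ) • c - x - c = -(x - c) := by rw [two_smul]; abel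
    rw [h2, inner_neg_left, abs_neg]
    exact h1
  have hsym2 : ∀ x ∈ Q, (2 : ℝ) • h c - x ∈ Q := by
    intro x hx
    rw [← hh] at hx
    obtain ⟨y, hy, rfl⟩ := hx
    have h3 : h ((2 : ℝ) • c - y) ∈ h '' Q := mem_image_of_mem _ (hsym y hy)
    rw [hh, map_sub, map_smul] at h3
    exact h3
  have hz : ∀ i, ⟪h c - c, b i⟫ = 0 := by
    intro i
    have hb : ∀ s : ℝ, |s| ≤ r → c + s • b i ∈ Q := by
      intro s hs
      rw [hQ]
      intro j
      rw [add_sub_cancel_left, real_inner_smul_left, inner_bb]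
      split_ifs
      · rw [mul_one]
        exact hs
      · rw [mul_zero, abs_zero]
        exact hr.le
    have e6 : ∀ s : ℝ, ⟪(2 : ℝ) • h c - (c + s • b i) - c, b i⟫ = 2 * ⟪h c - c, b i⟫ - s := by
      intro s
      have e : (2 : ℝ) • h c - (c + s • b i) - c = (2 : ℝ) • (h c - c) - s • b i := by module
      rw [e, inner_sub_left, real_inner_smul_left, real_inner_smul_left, inner_bb, if_pos rfl,
        mul_one]
    have h4 := hsym2 _ (hb r (abs_of_pos hr).le)
    have h5 := hsym2 _ (hb (-r) (by rw [abs_neg, abs_of_pos hr]))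
    rw [hQ] at h4 h5
    have h6 := h4 i
    have h7 := h5 i
    rw [e6, abs_le] at h6 h7
    linarith [h6.1, h7.2]
  have := eq_zero_of_inner b _ hz
  exact sub_eq_zero.1 this

theorem cenC : S_TR → S_G3 → S_CENC := by
  intro hTR hG3 D P H v n ι hD hP hH hv hyp c r b hr hQ
  obtain ⟨hsup, hn, hort, hfix, -, hgood⟩ := hyp
  have hpres := (hTR D P H v n ι hP hH hv hsup hn hort hfix).1
  obtain ⟨Q, hQd⟩ : ∃ Q, Q = fig v n ι P := ⟨_, rfl⟩
  rw [← hQd] at hpres hgood hQ
  obtain ⟨-, hadj⟩ := hG3 D Q c r b hr hQ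
  have hvx := (hG3 D Q c r b hr hQ).1
  have hc : ∀ k ∈ figH H v ι, k c = c := fun k hk => fix_center Q c r b hr hQ k (hpres k hk)
  -- the neighbours of a vertex
  have key : ∀ ε : Fin D → ℝ, (∀ i, ε i = 1 ∨ ε i = -1) → ∀ i j, i ≠ j →
      ε i * ⟪b i, c⟫ = ε j * ⟪b j, c⟫ := by
    intro ε hε i j hij
    obtain ⟨x, hx⟩ : ∃ x : E D, x = c + ∑ l, (r * ε l) • b l := ⟨_, rfl⟩
    have hxc : ∀ l, ⟪x - c, b l⟫ = r * ε l := by
      intro l
      rw [hx, add_sub_cancel_left, sum_inner]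
      simp only [real_inner_smul_left, inner_bb]
      simp
    obtain ⟨w, hw⟩ : ∃ w : Fin D → E D, w = fun m => x - (2 * r * ε m) • b m := ⟨_, rfl⟩
    have hwc : ∀ m l, ⟪w m - c, b l⟫ = if m = l then -(r * ε l) else r * ε l := by
      intro m l
      have e : w m - c = (x - c) - (2 * r * ε m) • b m := by
        rw [hw]
        exact sub_right_comm _ _ _
      rw [e, inner_sub_left, hxc, real_inner_smul_left, inner_bb]
      split_ifs with hml
      · subst hml
        ring
      · ring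
    have hpm : ∀ l, r * ε l = r ∨ r * ε l = -r := by
      intro l
      rcases hε l with h1 | h1
      · left; rw [h1, mul_one]
      · right; rw [h1]; ring
    have hxv : Vx Q x := (hvx x).2 fun l => by
      rw [hxc]
      exact hpm l
    have hwv : ∀ m, Vx Q (w m) := fun m => (hvx (w m)).2 fun l => by
      rw [hwc]
      split_ifs
      · rcases hpm l with h1 | h1
        · right; rw [h1]
        · left; rw [h1, neg_neg]
      · exact hpm l
    have hwa : ∀ m, Adj Q x (w m) := fun m => (hadj x (w m) hxv (hwv m)).2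
      ⟨m, by rw [hwc, if_pos rfl, hxc], fun l hl => by rw [hwc, if_neg (Ne.symm hl), hxc]⟩
    obtain ⟨k, hk, hkw⟩ := hgood x (w i) (w j) (hwa i) (hwa j)
    have h1 : ⟪w j, c⟫ = ⟪w i, c⟫ := by
      rw [← hkw]
      conv_lhs => rw [← hc k hk]
      exact k.inner_map_map (w i) c
    have h2 : ∀ m, ⟪w m, c⟫ = ⟪x, c⟫ - 2 * r * (ε m * ⟪b m, c⟫) := by
      intro m
      rw [hw]
      simp only [inner_sub_left, real_inner_smul_left]
      ring
    rw [h2, h2] at h1
    have h3 : 2 * r * (ε i * ⟪b i, c⟫ - ε j * ⟪b j, c⟫) = 0 := by linarith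
    rcases mul_eq_zero.1 h3 with h4 | h4
    · linarith
    · linarith
  apply eq_zero_of_inner b
  intro i
  obtain ⟨j, hj⟩ : ∃ j : Fin D, i ≠ j := by
    have : Nontrivial (Fin D) := Fin.nontrivial_iff_two_le.2 (by omega)
    obtain ⟨j, hj⟩ := exists_ne i
    exact ⟨j, hj.symm⟩
  have h1 := key (fun _ => 1) (fun _ => Or.inl rfl) i j hj
  have h2 := key (Function.update (fun _ => 1) i (-1)) (fun l => by
    by_cases hl : l = i
    · subst hl
      right
      simp
    · left
      simp [Function.update_of_ne hl]) i j hj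
  rw [Function.update_self, Function.update_of_ne (Ne.symm hj)] at h2
  rw [real_inner_comm]
  linarith

end Pool.Agent.T9h26.NK
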